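import Pool.Agent.Run7.h350.Morse
import Pool.Agent.Run7.h350.Concrete2

/-!
The equilibria of the `N`-species competition system with dispersal rates `d 0 < ... < d (N-1)`
form a Morse decomposition as soon as the rates satisfy an explicit gap condition, which is
independent of the domain and of the resource function.
-/

open Set Filter Topology
open Run7.h350

namespace Pool.Agent.Results.MP_d8ef8f_an.UniformGapMorse

theorem result {n N : ℕ} (Ω : Set (EuclideanSpace ℝ (Fin n))) (ρ : EuclideanSpace ℝ (Fin n) → ℝ)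
    (hΩ : SmoothDomain Ω ρ) (m : EuclideanSpace ℝ (Fin n) → ℝ)
    (hm : ContinuousOn m (closure Ω)) (hmne : ¬ ∃ c, ∀ x ∈ Ω, m x = c)
    (d : Fin N → ℝ) (hd : ∀ i, 0 < d i) (hmono : StrictMono d)
    (hgap : ∀ i k : Fin N, (i : ℕ) + 1 = k →
      2500 * d k * ∑ j ∈ Finset.Ioi k, (d j - d k) ^ 2 ≤ d i ^ 2 * (d k - d i))
    (θ : Fin N → EuclideanSpace ℝ (Fin n) → ℝ) (hθ : ∀ i, IsSteady Ω ρ m (d i) (θ i)) :
    IsMorse Ω ρ m d θ := by
  apply morse_of_HFun hΩ hm hmne hd hθ
  intro i
  by_cases hlast : (i : ℕ) + 1 < N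
  · obtain ⟨k, hk⟩ : ∃ k : Fin N, (i : ℕ) + 1 = k := ⟨⟨i + 1, hlast⟩, rfl⟩
    have hik : i < k := by
      rw [Fin.lt_def]; omega
    have hdi := hd i
    have hdk := hmono hik
    have hge : ∀ j ∈ Finset.Ioi i, d k ≤ d j := by
      intro j hj
      rw [Finset.mem_Ioi, Fin.lt_def] at hj
      apply hmono.monotone
      rw [Fin.le_def]; omega
    refine exists_HFun i (Finset.Ioi i) (by simp) d hdi (q := (d k - d i) / d i)
      (div_pos (by linarith) hdi) ?_ ?_
    · intro j hj
      exact div_le_div_of_nonneg_right (by linarith [hge j hj]) hdi.le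
    · have hsum : ∑ j ∈ Finset.Ioi i, ((d j - d i) / d i - (d k - d i) / d i) ^ 2 =
          (∑ j ∈ Finset.Ioi k, (d j - d k) ^ 2) / d i ^ 2 := by
        have h1 : Finset.Ioi i = insert k (Finset.Ioi k) := by
          ext j
          rw [Finset.mem_Ioi, Finset.mem_insert, Finset.mem_Ioi, Fin.lt_def, Fin.lt_def,
            Fin.ext_iff]
          omega
        rw [h1, Finset.sum_insert (by simp), Finset.sum_div]
        have h2 : ((d k - d i) / d i - (d k - d i) / d i) ^ 2 = 0 := by ring
        rw [h2, zero_add]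
        apply Finset.sum_congr rfl
        intro j _
        field_simp
        ring
      rw [hsum]
      have h3 := hgap i k hk
      have h4 : 1 + (d k - d i) / d i = d k / d i := by field_simp; ring
      rw [h4]
      have h5 : 2500 * (d k / d i) * ((∑ j ∈ Finset.Ioi k, (d j - d k) ^ 2) / d i ^ 2) =
          (2500 * d k * ∑ j ∈ Finset.Ioi k, (d j - d k) ^ 2) / d i ^ 3 := by
        field_simp
      have h6 : (d k - d i) / d i = (d i ^ 2 * (d k - d i)) / d i ^ 3 := by
        field_simp
      rw [h5, h6]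
      exact div_le_div_of_nonneg_right h3 (by positivity)
  · have hempty : Finset.Ioi i = ∅ := by
      ext j
      rw [Finset.mem_Ioi, Fin.lt_def]
      have := j.isLt
      simp only [Finset.notMem_empty, iff_false]
      omega
    refine exists_HFun i (Finset.Ioi i) (by simp) d (hd i) (q := 1) one_pos ?_ ?_
    · intro j hj
      rw [hempty] at hj
      simp at hj
    · rw [hempty]
      norm_num

end Pool.Agent.Results.MP_d8ef8f_an.UniformGapMorse
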